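import Pool.Agent.Run7.h328.ORD.DblK

/-!
# Ordinary reduction of almost all double planes (and double covers of toric surfaces) at a positive proportion of the places

Let `E` be a finite set of exponents in two variables and consider the surfaces `w² = F(x, y)`, `F = ∑_{e ∈ E} c_e x^e`, over a number
field `K`.  Let `U` be a finite set of exponents with `2 U ⊆ E`.

*Double planes.*  `E = {e : e₀ + e₁ ≤ 2 m}` and `U = {u : u₀, u₁ ≥ 1, u₀ + u₁ ≤ m - 1}`: the double covers of the plane branched along the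
curves of degree `2 m`; `m = 3`: K3 surfaces, `m ≥ 4`: surfaces of general type with `p_g = |U| = (m - 1) (m - 2) / 2`.
*General case.*  `E` the lattice points of a lattice polygon `P` and `U` the interior lattice points of `P / 2`: the double covers of the
toric surface of `P`, for instance of `P¹ × P¹`, or fibrations in hyperelliptic curves; `p_g = |U|`.

The Frobenius map of `H²(X_v, 𝓞)` is given by the Hasse-Witt matrix `(coefficient of x^(p u - u') in F^((p - 1) / 2))_{u, u' ∈ U}`.  If it is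
invertible, the slopes `0` and `2` occur in `H²` as often as possible, `p_g` times, so that the Newton polygon of `H²(X_v)` is equal to the
Hodge polygon; `H¹` and `H³` vanish.

1. For every prime number `p > 2` the matrix is invertible for at least `p ^ |E| / 2 ^ |U|` of the coefficient vectors `c ∈ F_p ^ E`.

2. For `H` large in terms of `ε`, `E`, `U`, `d`, all number fields `K` of degree `d`, all `α ∈ 𝓞_K ^ E` and every family `𝒮` of at most
   `H ^ (ε / 500)` sets of places of `K`: for all `m ∈ [-H, H] ^ E` outside a proportion `H ^ (-ε / 500)`,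

   `#{v ∈ S : q_v ≤ N, v ∤ 2, matrix invertible mod v} ≥ 2 ^ (-|U|) #{v ∈ S : q_v ≤ N} - C (N ^ (1 / 2 + ε) + (log H) ^ (4 / ε))`

   for all `S ∈ 𝒮` and all `N ≤ H ^ (ε / 200)` at the same time, for the surface with the coefficients `α + m`.

Proof of 1.  Let `n = (p - 1) / 2` and give `c_e` the weight `W - |e|²` with a large constant `W`.  By the inequality of Cauchy-Schwarz the
weights in the entry with the exponent `N = p u - u'` are at most `n W - |N|² / n`, with equality only for the diagonal entries and the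
monomial `c_{2 u} ^ n`; and the sum of `|p σ(u) - u|²` over `u` is the smallest for `σ = 1` only.  So the determinant has the leading
monomial `∏ c_{2 u} ^ n` with coefficient `1`, and the footprint bound gives at least `(p - n) ^ |U| p ^ (|E| - |U|)` points where it does not
vanish.  Proof of 2: the residues of `m` modulo the square-free numbers up to a power of `H` are uniformly distributed; the high
moments of the sum over the primes `v` of degree one in dyadic intervals are small.
-/

set_option autoImplicit false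

open Filter

namespace Pool.Agent.Results.MP_17d720_ag.DoublePlanes

open NumberField IsDedekindDomain Finset

/-- The polynomial `∑ c_e x ^ e` in two variables. -/
noncomputable def poly {k : Type} [Field k] {E : Finset (Fin 2 →₀ ℕ)} (c : E → k) : MvPolynomial (Fin 2) k :=
  ∑ e : E, MvPolynomial.monomial e.1 (c e)

open Classical in
/-- The Hasse-Witt matrix of `w ^ 2 = F`, `F = poly c`, in characteristic `p`: for `u, u' ∈ U` the coefficient of `x ^ (p u - u')`
in `F ^ ((p - 1) / 2)` (zero if `p u - u'` has a negative coordinate). -/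
noncomputable def hasseWitt {k : Type} [Field k] (p : ℕ) {E : Finset (Fin 2 →₀ ℕ)} (U : Finset (Fin 2 →₀ ℕ)) (c : E → k) :
    Matrix U U k :=
  Matrix.of fun u u' => if u'.1 ≤ p • u.1 then MvPolynomial.coeff (p • u.1 - u'.1) (poly c ^ ((p - 1) / 2)) else 0

section
variable {K : Type} [Field K] [NumberField K]

/-- `q_v`, the norm of `v`. -/
noncomputable def q (v : HeightOneSpectrum (𝓞 K)) : ℕ := Ideal.absNorm v.asIdeal

/-- The coefficients modulo `v`. -/
noncomputable def bar (v : HeightOneSpectrum (𝓞 K)) {E : Finset (Fin 2 →₀ ℕ)} (c : E → 𝓞 K) : E → 𝓞 K ⧸ v.asIdeal :=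
  fun e => Ideal.Quotient.mk v.asIdeal (c e)

/-- `v` does not divide `2` and the Hasse-Witt matrix is invertible modulo `v`. -/
def Ordinary {E : Finset (Fin 2 →₀ ℕ)} (U : Finset (Fin 2 →₀ ℕ)) (v : HeightOneSpectrum (𝓞 K)) (c : E → 𝓞 K) : Prop :=
  (2 : 𝓞 K) ∉ v.asIdeal ∧ (hasseWitt (ringChar (𝓞 K ⧸ v.asIdeal)) U (bar v c)).det ≠ 0

end

/-- The box `[-H, H] ^ E`. -/
noncomputable def cube (E : Finset (Fin 2 →₀ ℕ)) (H : ℕ) : Finset (E → ℤ) := Fintype.piFinset fun _ => Icc (-(H : ℤ)) H

/-- **The theorem.**  See the head of the file. -/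
theorem result (E U : Finset (Fin 2 →₀ ℕ)) (hU : ∀ u ∈ U, 2 • u ∈ E) (d : ℕ) :
    (∀ (p : ℕ) [Fact p.Prime], p ≠ 2 →
      (p : ℝ) ^ E.card / 2 ^ U.card ≤ Nat.card {c : E → ZMod p // (hasseWitt p U c).det ≠ 0}) ∧
    ∃ C : ℝ, 0 < C ∧ ∀ ε : ℝ, 0 < ε → ε ≤ 1 → ∃ H₀ : ℕ, ∀ H : ℕ, H₀ ≤ H →
      ∀ (K : Type) [Field K] [NumberField K], Module.finrank ℚ K = d → ∀ α : E → 𝓞 K,
      ∀ 𝒮 : Finset (Set (HeightOneSpectrum (𝓞 K))), (𝒮.card : ℝ) ≤ (H : ℝ) ^ (ε / 500) →
      ∃ X ⊆ cube E H, (X.card : ℝ) ≤ (H : ℝ) ^ (-(ε / 500)) * (2 * H + 1) ^ E.card ∧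
        ∀ m ∈ cube E H \ X, ∀ S ∈ 𝒮, ∀ N : ℕ, (N : ℝ) ≤ (H : ℝ) ^ (ε / 200) →
          (1 / 2 : ℝ) ^ U.card * Nat.card {v : HeightOneSpectrum (𝓞 K) // v ∈ S ∧ q v ≤ N} -
              C * ((N : ℝ) ^ (1 / 2 + ε) + Real.log H ^ (4 / ε)) ≤
            Nat.card {v : HeightOneSpectrum (𝓞 K) // v ∈ S ∧ q v ≤ N ∧ Ordinary U v (fun e => α e + (m e : 𝓞 K))} := by
  classical
  let ex : E → (Fin 2 →₀ ℕ) := fun e => e.1
  let u : U → (Fin 2 →₀ ℕ) := fun x => x.1
  let t : U → E := fun x => ⟨2 • x.1, hU x.1 x.2⟩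
  have hex : Function.Injective ex := Subtype.val_injective
  have hu : Function.Injective u := Subtype.val_injective
  have ht : ∀ j, ex (t j) = 2 • u j := fun j => rfl
  constructor
  · intro p hp h2
    have h := Run7.h328.ORD.Dbl.count_detD (p := p) h2 ex u t hex hu ht
    rw [Fintype.card_coe, Fintype.card_coe] at h
    have e : Nat.card {c : E → ZMod p // (hasseWitt p U c).det ≠ 0} =
        ((univ : Finset (E → ZMod p)).filter (fun r => (Run7.h328.ORD.Dbl.HWd p ex u r).det ≠ 0)).card := by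
      rw [Nat.card_eq_fintype_card, Fintype.card_subtype]
      rfl
    rw [e]
    convert h
  · obtain ⟨C, hC, h⟩ := Run7.h328.ORD.Dbl.dblK ex u t hex hu ht d
    refine ⟨C, hC, fun ε hε hε1 => ?_⟩
    obtain ⟨H₀, h⟩ := Filter.eventually_atTop.1 (h ε hε hε1)
    refine ⟨H₀, fun H hH K _ _ hK α 𝒮 h𝒮 => ?_⟩
    obtain ⟨Ex, hE1, hE2, hE3⟩ := h H hH K hK α 𝒮 h𝒮
    have hbox : Pool.Agent.Y722.HS.box E H = cube E H := rfl
    have hcard : ((cube E H).card : ℝ) = (2 * H + 1) ^ E.card := by
      unfold cube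
      rw [Fintype.card_piFinset]
      simp only [Int.card_Icc, Finset.prod_const, Finset.card_univ, Fintype.card_coe]
      have : ((H : ℤ) + 1 - -(H : ℤ)).toNat = 2 * H + 1 := by omega
      rw [this]
      push_cast
      ring
    rw [hbox] at hE1 hE2 hE3
    refine ⟨Ex, hE1, ?_, ?_⟩
    · rw [← hcard]
      exact hE2
    · intro m hm S hS N hN
      have h1 := hE3 m hm S hS N hN
      rw [Fintype.card_coe] at h1
      refine h1.trans (le_of_eq ?_)
      congr 1
      refine Nat.card_congr (Equiv.subtypeEquivRight fun v => ?_)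
      have e1 : Pool.Agent.H921R2.TatePole.nm v = q v := rfl
      have e2 : Run7.h328.ORD.Dbl.OD ex u (𝓞 K ⧸ v.asIdeal) (Run7.h328.ORD.rvg v fun i => α i + (m i : 𝓞 K)) ↔
          Ordinary U v (fun e => α e + (m e : 𝓞 K)) := by
        unfold Run7.h328.ORD.Dbl.OD Ordinary
        have h3 : ((2 : 𝓞 K ⧸ v.asIdeal) ≠ 0) ↔ (2 : 𝓞 K) ∉ v.asIdeal := by
          rw [← Ideal.Quotient.eq_zero_iff_mem, map_ofNat]
        rw [h3]
        rfl
      rw [e1, e2, and_assoc]

end Pool.Agent.Results.MP_17d720_ag.DoublePlanes
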