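import Pool.Agent.Run7.h328.ORD.OrdK

/-!
# Ordinary reduction of almost all hyperelliptic Jacobians at a positive proportion of the places

Let `K` be a number field of degree `d` and `α ∈ 𝓞_K ^ (2 g + 1)`.  For `m ∈ ℤ ^ (2 g + 1)` let `C_m` be the curve
`y² = x ^ (2 g + 1) + (α_{2g} + m_{2g}) x ^ (2 g) + ... + (α₀ + m₀)` of genus `g`.  At a place `v` of `K` which does not divide `2` and
at which the polynomial is separable the curve has good reduction, and its Jacobian is ordinary at `v` if and only if the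
Hasse-Witt matrix `(c_{i p - j})_{1 ≤ i, j ≤ g}`, `f ^ ((p - 1) / 2) = ∑ c_n x ^ n`, is invertible modulo `v`, where `p` is the
characteristic of `k_v` (Manin, Yui).

1. For every prime number `p > 2`, `p > g`, the Hasse-Witt matrix is invertible for at least `p ^ (2 g + 1) / 2 ^ g` of the monic polynomials
   `f` of degree `2 g + 1` over `F_p`.

2. For `H` large in terms of `ε`, `g`, `d`, all number fields `K` of degree `d`, all `α` and every family `𝒮` of at most
   `H ^ (ε / 500)` sets of places of `K`: for all `m ∈ [-H, H] ^ (2 g + 1)` outside a proportion `H ^ (-ε / 500)`,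

   `#{v ∈ S : q_v ≤ N, C_m good and ordinary at v} ≥ 2 ^ (-g) #{v ∈ S : q_v ≤ N} - C (N ^ (1 / 2 + ε) + (log H) ^ (4 / ε))`

   for all `S ∈ 𝒮` and all `N ≤ H ^ (ε / 200)` at the same time, with `C = C(g, d)`.

Proof of 1.  Let `n = (p - 1) / 2` and give `a_k` the weight `w_k = W - k ^ 2` with a large constant `W`.  By the inequality of
Cauchy-Schwarz and the strict concavity of the weights the determinant has the unique monomial `∏ a_{2 i} ^ n` (`1 ≤ i ≤ g`) of the
largest weight, with coefficient `1`: for the matrix entry `c_{i p - j}` the weight is at most `n W - (i p - j) ^ 2 / n`, and the sum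
of `(σ(j) p - j) ^ 2` over `j` is the smallest for `σ = 1` only.  The footprint bound (the standard monomials of the vanishing ideal of
the zeros avoid the multiples of the leading monomial) gives at least `(p - n) ^ g p ^ (g + 1)` points where the determinant
does not vanish.  Proof of 2: the residues of `m` modulo the square-free numbers up to a power of `H` are uniformly distributed; the
high moments of the sum over the primes `v` of degree one in dyadic intervals are small.
-/

set_option autoImplicit false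

open Filter

namespace Pool.Agent.Results.MP_17d720_ag.HyperellipticAlmostAll

open NumberField IsDedekindDomain Finset

/-- The polynomial `x ^ (2 g + 1) + c_{2 g} x ^ (2 g) + ... + c_0`. -/
noncomputable def poly {k : Type} [CommRing k] {g : ℕ} (c : Fin (2 * g + 1) → k) : Polynomial k :=
  Polynomial.X ^ (2 * g + 1) + ∑ i, Polynomial.C (c i) * Polynomial.X ^ (i : ℕ)

/-- The Hasse-Witt (Cartier-Manin) matrix of `y ^ 2 = f(x)`, `f = poly c`, in characteristic `p`: the entry with the indices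
`(i, j)`, `1 ≤ i, j ≤ g`, is the coefficient of `x ^ (i p - j)` in `f ^ ((p - 1) / 2)` (zero if `i p < j`). -/
noncomputable def hasseWitt {k : Type} [Field k] (p : ℕ) {g : ℕ} (c : Fin (2 * g + 1) → k) : Matrix (Fin g) (Fin g) k :=
  Matrix.of fun i j => if (j : ℕ) + 1 ≤ ((i : ℕ) + 1) * p then
    ((poly c) ^ ((p - 1) / 2)).coeff (((i : ℕ) + 1) * p - ((j : ℕ) + 1)) else 0

section
variable {K : Type} [Field K] [NumberField K]

/-- `q_v`, the norm of `v`. -/
noncomputable def q (v : HeightOneSpectrum (𝓞 K)) : ℕ := Ideal.absNorm v.asIdeal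

/-- The coefficients modulo `v`. -/
noncomputable def bar (v : HeightOneSpectrum (𝓞 K)) {g : ℕ} (c : Fin (2 * g + 1) → 𝓞 K) : Fin (2 * g + 1) → 𝓞 K ⧸ v.asIdeal :=
  fun i => Ideal.Quotient.mk v.asIdeal (c i)

/-- `v` does not divide `2`, the polynomial is separable modulo `v` (so that `y ^ 2 = poly c` is smooth modulo `v`), and the
Hasse-Witt matrix is invertible modulo `v`. -/
def GoodOrdinary {g : ℕ} (v : HeightOneSpectrum (𝓞 K)) (c : Fin (2 * g + 1) → 𝓞 K) : Prop :=
  (2 : 𝓞 K) ∉ v.asIdeal ∧ (poly (bar v c)).Separable ∧ (hasseWitt (ringChar (𝓞 K ⧸ v.asIdeal)) (bar v c)).det ≠ 0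

end

/-- The box `[-H, H] ^ (2 g + 1)`. -/
noncomputable def cube (g H : ℕ) : Finset (Fin (2 * g + 1) → ℤ) := Fintype.piFinset fun _ => Icc (-(H : ℤ)) H

/-- **The theorem.**  See the head of the file. -/
theorem result (g d : ℕ) :
    (∀ (p : ℕ) [Fact p.Prime], p ≠ 2 → g < p →
      (p : ℝ) ^ (2 * g + 1) / 2 ^ g ≤ Nat.card {c : Fin (2 * g + 1) → ZMod p // (hasseWitt p c).det ≠ 0}) ∧
    ∃ C : ℝ, 0 < C ∧ ∀ ε : ℝ, 0 < ε → ε ≤ 1 → ∃ H₀ : ℕ, ∀ H : ℕ, H₀ ≤ H →
      ∀ (K : Type) [Field K] [NumberField K], Module.finrank ℚ K = d → ∀ α : Fin (2 * g + 1) → 𝓞 K,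
      ∀ 𝒮 : Finset (Set (HeightOneSpectrum (𝓞 K))), (𝒮.card : ℝ) ≤ (H : ℝ) ^ (ε / 500) →
      ∃ X ⊆ cube g H, (X.card : ℝ) ≤ (H : ℝ) ^ (-(ε / 500)) * (2 * H + 1) ^ (2 * g + 1) ∧
        ∀ m ∈ cube g H \ X, ∀ S ∈ 𝒮, ∀ N : ℕ, (N : ℝ) ≤ (H : ℝ) ^ (ε / 200) →
          (1 / 2 : ℝ) ^ g * Nat.card {v : HeightOneSpectrum (𝓞 K) // v ∈ S ∧ q v ≤ N} -
              C * ((N : ℝ) ^ (1 / 2 + ε) + Real.log H ^ (4 / ε)) ≤
            Nat.card {v : HeightOneSpectrum (𝓞 K) // v ∈ S ∧ q v ≤ N ∧ GoodOrdinary v (fun i => α i + (m i : 𝓞 K))} := by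
  classical
  constructor
  · intro p hp h2 hgp
    have h := Run7.h328.ORD.count_det g p hgp h2
    have e : Nat.card {c : Fin (2 * g + 1) → ZMod p // (hasseWitt p c).det ≠ 0} =
        ((univ : Finset (Fin (2 * g + 1) → ZMod p)).filter (fun r => (Run7.h328.ORD.HW p r).det ≠ 0)).card := by
      rw [Nat.card_eq_fintype_card, Fintype.card_subtype]
      rfl
    rw [e]
    convert h
  · obtain ⟨C, hC, h⟩ := Run7.h328.ORD.ordK g d
    refine ⟨C, hC, fun ε hε hε1 => ?_⟩
    obtain ⟨H₀, h⟩ := Filter.eventually_atTop.1 (h ε hε hε1)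
    refine ⟨H₀, fun H hH K _ _ hK α 𝒮 h𝒮 => ?_⟩
    obtain ⟨Ex, hE1, hE2, hE3⟩ := h H hH K hK α 𝒮 h𝒮
    have hbox : Pool.Agent.Y722.HS.box (Fin (2 * g + 1)) H = cube g H := rfl
    have hcard : ((cube g H).card : ℝ) = (2 * H + 1) ^ (2 * g + 1) := by
      unfold cube
      rw [Fintype.card_piFinset]
      simp only [Int.card_Icc, Finset.prod_const, Finset.card_univ, Fintype.card_fin]
      have : ((H : ℤ) + 1 - -(H : ℤ)).toNat = 2 * H + 1 := by omega
      rw [this]
      push_cast
      ring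
    rw [hbox] at hE1 hE2 hE3
    refine ⟨Ex, hE1, ?_, ?_⟩
    · rw [← hcard]
      exact hE2
    · intro m hm S hS N hN
      refine (hE3 m hm S hS N hN).trans (le_of_eq ?_)
      congr 1
      refine Nat.card_congr (Equiv.subtypeEquivRight fun v => ?_)
      have e1 : Pool.Agent.H921R2.TatePole.nm v = q v := rfl
      have e2 : Run7.h328.ORD.OV v (fun i => α i + (m i : 𝓞 K)) ↔ GoodOrdinary v (fun i => α i + (m i : 𝓞 K)) := by
        unfold Run7.h328.ORD.OV GoodOrdinary
        rw [← and_assoc]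
        rfl
      rw [e1, e2, and_assoc]

end Pool.Agent.Results.MP_17d720_ag.HyperellipticAlmostAll
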