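import Pool.Agent.Run7.h635.GEN.Rat
import Pool.Agent.Run7.h635.GEN.Slopes

/-!
# Ordinary primes of the eigenforms of weight at least 3 with rational integral coefficients

These are the forms attached to rigid Calabi-Yau threefolds over `ℚ` (weight 4), and to other
varieties over `ℚ` whose transcendental cohomology is two-dimensional of Hodge type
`(k - 1, 0) + (0, k - 1)`.
-/

set_option autoImplicit false

open MatrixGroups UpperHalfPlane CongruenceSubgroup

namespace Pool.Agent.Results.MP_17d720_ag.RigidCalabiYauOverQ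

/-- The Hecke operator `T_p` (`U_p` if `p ∣ M`) of weight `k` and level `Γ_0(M)` on functions on
the upper half-plane: `z ↦ p^(k-1) f(pz) + p^(-1) ∑_{b mod p} f((z+b)/p)`, where the first term is
left out if `p ∣ M`. -/
noncomputable def heckeT (M k p : ℕ) (f : ℍ → ℂ) (z : ℍ) : ℂ :=
  (if p ∣ M then 0 else (p : ℂ) ^ (k - 1) * f (ofComplex ((p : ℂ) * z))) +
    (∑ b ∈ Finset.range p, f (ofComplex (((z : ℂ) + b) / p))) / p

/-- `f`, a cusp form of weight `k` on `Γ_0(M)`, is a normalized Hecke eigenform with the rational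
integral coefficients `a n`: `f = ∑ a_n e(nz)`, `a_1 = 1`, and `f` is an eigenfunction of `T_p` for
all primes `p`. -/
structure IsIntegralEigenform {M k : ℕ} (f : CuspForm (Gamma0 M) k) (a : ℕ → ℤ) : Prop where
  coeff : ∀ n, (qExpansion 1 f).coeff n = a n
  one : a 1 = 1
  hecke : ∀ p : ℕ, p.Prime → ∃ c : ℂ, ∀ z : ℍ, heckeT M k p f z = c * f z

/-- The polynomial `T² - t T + p^m` (for `t = a_p`, `m = k - 1` the characteristic polynomial of
the Frobenius at `p`) has two roots in `ℚ_p`, of valuations `0` and `m`: its Newton polygon, with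
slopes `0` and `m`, is the Hodge polygon. -/
def OrdinaryAt (m p : ℕ) [Fact p.Prime] (t : ℤ) : Prop :=
  ∃ α β : ℚ_[p], ‖α‖ = 1 ∧ ‖β‖ = (p : ℝ) ^ (-(m : ℤ)) ∧
    (Polynomial.X ^ 2 - Polynomial.C (t : ℚ_[p]) * Polynomial.X +
      Polynomial.C ((p : ℚ_[p]) ^ m)) =
      (Polynomial.X - Polynomial.C α) * (Polynomial.X - Polynomial.C β)

/-- **For every normalized eigenform of weight `k ≥ 3` on `Γ_0(M)` with rational integral
coefficients, the set of primes `p ∤ M` at which the Newton polygon of the Frobenius polynomial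
`T² - a_p T + p^(k-1)` is the Hodge polygon (equivalently `p ∤ a_p`) has positive lower density.** -/
theorem result (M k : ℕ) [NeZero M] (hk : 3 ≤ k) (f : CuspForm (Gamma0 M) k) (a : ℕ → ℤ)
    (hf : IsIntegralEigenform f a) :
    0 < Filter.liminf (fun x : ℕ =>
      (Nat.card {p : ℕ // p ≤ x ∧ p.Prime ∧ ¬ p ∣ M ∧
        ∃ _ : Fact p.Prime, OrdinaryAt (k - 1) p (a p)} : ℝ) /
        Nat.card {p : ℕ // p ≤ x ∧ p.Prime}) Filter.atTop := by
  have h1 : (qExpansion 1 f).coeff 1 = 1 := by rw [hf.coeff, hf.one, Int.cast_one]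
  refine H594.CY.liminf_pos (fun p => ¬ p ∣ M ∧ ∃ _ : Fact p.Prime, OrdinaryAt (k - 1) p (a p))
    (H635.GEN.PosLog.mono (fun p hp h => ⟨h.1, ⟨hp⟩, ?_⟩)
      (H635.GEN.rat M k hk f h1 hf.hecke a hf.coeff))
  have : Fact p.Prime := ⟨hp⟩
  exact (H635.GEN.Slopes.slopes_iff (k - 1) p (by omega) (a p)).2 h.2

end Pool.Agent.Results.MP_17d720_ag.RigidCalabiYauOverQ
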