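import Pool.Agent.Run7.h594.CY.Main

/-!
# Ordinary primes of a rigid Calabi-Yau threefold

For an integer `d ≠ 0` let `X_d` be the double covering
`d v² = x y z t (x + y) (y + z) (z + t) (t + x)` of `ℙ³` branched along eight planes. Its crepant
resolution is a rigid Calabi-Yau threefold over `ℚ`; the third cohomology is the motive of a twist
of the newform `η(2τ)⁴ η(4τ)⁴` of weight `4` and level `8`, which has no complex multiplication.
The number `A_p` of solutions of the equation in `𝔽_p⁵` satisfies
`#X_d(𝔽_p) = (A_p - 1) / (p - 1) ≡ 1 - A_p` modulo `p`, so that (for almost all `p`) the reduction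
of `X_d` at `p` is ordinary if and only if `p` does not divide `A_p`.

Theorem: the set of these primes has positive lower density.
-/

set_option autoImplicit false

namespace Pool.Agent.Results.MP_17d720_ag.RigidThreefold

/-- The set of all `(x, y, z, t, v)` in `𝔽_p⁵` with
`d v² = x y z t (x + y) (y + z) (z + t) (t + x)`. -/
def Solutions (p : ℕ) (d : ℤ) : Set (ZMod p × ZMod p × ZMod p × ZMod p × ZMod p) :=
  {P | (d : ZMod p) * P.2.2.2.2 ^ 2 = P.1 * P.2.1 * P.2.2.1 * P.2.2.2.1 * (P.1 + P.2.1) *
    (P.2.1 + P.2.2.1) * (P.2.2.1 + P.2.2.2.1) * (P.2.2.2.1 + P.1)}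

/-- **Theorem.** For every integer `d ≠ 0` the primes `p` which do not divide the number of
solutions of `d v² = x y z t (x + y) (y + z) (z + t) (t + x)` in `𝔽_p⁵` have positive lower
density in the set of all primes. -/
theorem result (d : ℤ) (hd : d ≠ 0) :
    0 < Filter.liminf (fun x : ℕ =>
      (Nat.card {p : ℕ // p ≤ x ∧ p.Prime ∧ ¬ p ∣ Nat.card (Solutions p d)} : ℝ) /
        Nat.card {p : ℕ // p ≤ x ∧ p.Prime}) Filter.atTop :=
  H594.CY.threefold d hd

end Pool.Agent.Results.MP_17d720_ag.RigidThreefold
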